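import Mathlib
import Pool.Agent.Q217.TT.Sums

/-!
# Tails of multiple zeta values

`T p M` is the sum of `∏ n_i ^ (- s_i)` over `n_1 > ... > n_a > M`, for `p = [s_1, ..., s_a]` with letters at least two.
-/

set_option autoImplicit false

namespace Pool.Agent.L5helper5.CS

open Filter Topology
open Pool.Agent.Q217.TT
open Pool.Agent.H447R2.MZ (H H_nil H_cons H_cons_zero H_cons_succ H_nonneg H_mono Adm val tendsto_H H_le_val)

/-- the tail -/
noncomputable def T (p : List ℕ) (M : ℕ) : ℝ := ⨆ N : ℕ, ep p M (M + N)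

/-- all letters are at least two -/
def Two (p : List ℕ) : Prop := ∀ x ∈ p, 2 ≤ x

lemma ep_le_one {p : List ℕ} (hp : Two p) {M : ℕ} (hM : 1 ≤ M) : ∀ N, ep p M N ≤ 1 := by
  induction p with
  | nil => intro N; rw [ep_nil]
  | cons s p ih =>
    intro N
    have hs : 2 ≤ s := hp s List.mem_cons_self
    have hp' : Two p := fun x hx => hp x (List.mem_cons_of_mem _ hx)
    rcases Nat.lt_or_ge N M with h | h
    · rw [ep, Finset.Ico_eq_empty (by omega), Finset.sum_empty]
      exact zero_le_one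
    · have h1 : ep (s :: p) M N ≤ ep [2] M N := by
        rw [ep, ep]
        refine Finset.sum_le_sum fun n _ => ?_
        rw [ep_nil, mul_one]
        have h2 : (((n + 1 : ℕ) : ℝ) ^ s)⁻¹ ≤ (((n + 1 : ℕ) : ℝ) ^ 2)⁻¹ := by
          apply inv_anti₀ (by positivity)
          exact pow_le_pow_right₀ (by exact_mod_cast (by omega : 1 ≤ n + 1)) hs
        calc (((n + 1 : ℕ) : ℝ) ^ s)⁻¹ * ep p M n ≤ (((n + 1 : ℕ) : ℝ) ^ s)⁻¹ * 1 :=
              mul_le_mul_of_nonneg_left (ih hp' n) (by positivity)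
          _ ≤ _ := by rw [mul_one]; exact h2
      have h2 := ep_two_le' hM h
      have h3 : (1 : ℝ) / M ≤ 1 := by
        rw [div_le_one (by exact_mod_cast hM)]
        exact_mod_cast hM
      linarith

lemma ep_le_inv {p : List ℕ} (hp : Two p) (hne : p ≠ []) {M : ℕ} (hM : 1 ≤ M) (N : ℕ) :
    ep p M N ≤ 1 / (M : ℝ) := by
  obtain ⟨s, q, rfl⟩ : ∃ s q, p = s :: q := List.exists_cons_of_ne_nil hne
  have hs : 2 ≤ s := hp s List.mem_cons_self
  have hp' : Two q := fun x hx => hp x (List.mem_cons_of_mem _ hx)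
  rcases Nat.lt_or_ge N M with h | h
  · rw [ep, Finset.Ico_eq_empty (by omega), Finset.sum_empty]
    positivity
  · have h1 : ep (s :: q) M N ≤ ep [2] M N := by
      rw [ep, ep]
      refine Finset.sum_le_sum fun n _ => ?_
      rw [ep_nil, mul_one]
      have h2 : (((n + 1 : ℕ) : ℝ) ^ s)⁻¹ ≤ (((n + 1 : ℕ) : ℝ) ^ 2)⁻¹ := by
        apply inv_anti₀ (by positivity)
        exact pow_le_pow_right₀ (by exact_mod_cast (by omega : 1 ≤ n + 1)) hs
      calc (((n + 1 : ℕ) : ℝ) ^ s)⁻¹ * ep q M n ≤ (((n + 1 : ℕ) : ℝ) ^ s)⁻¹ * 1 :=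
            mul_le_mul_of_nonneg_left (ep_le_one hp' hM n) (by positivity)
        _ ≤ _ := by rw [mul_one]; exact h2
    exact h1.trans (ep_two_le' hM h)

lemma mono' (p : List ℕ) (M : ℕ) : Monotone fun N => ep p M (M + N) := by
  intro N N' h
  exact ep_mono (by omega) (by omega)

lemma bdd {p : List ℕ} (hp : Two p) {M : ℕ} (hM : 1 ≤ M) : BddAbove (Set.range fun N => ep p M (M + N)) := by
  refine ⟨1, ?_⟩
  rintro _ ⟨N, rfl⟩
  exact ep_le_one hp hM _

lemma tendsto_ep' {p : List ℕ} (hp : Two p) {M : ℕ} (hM : 1 ≤ M) :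
    Tendsto (fun N => ep p M (M + N)) atTop (𝓝 (T p M)) :=
  tendsto_atTop_ciSup (mono' p M) (bdd hp hM)

lemma tendsto_ep {p : List ℕ} (hp : Two p) {M : ℕ} (hM : 1 ≤ M) :
    Tendsto (fun N => ep p M N) atTop (𝓝 (T p M)) := by
  have h := tendsto_ep' hp hM
  have h1 : (fun N => ep p M (M + N)) = (fun N => ep p M N) ∘ (fun N => N + M) := by
    funext N
    rw [Function.comp, add_comm]
  rw [h1] at h
  exact (tendsto_add_atTop_iff_nat (f := fun N => ep p M N) M).1 h

lemma T_nil (M : ℕ) : T [] M = 1 := by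
  rw [T]
  simp [ep_nil]

lemma T_nonneg {p : List ℕ} (hp : Two p) {M : ℕ} (hM : 1 ≤ M) : 0 ≤ T p M :=
  ge_of_tendsto' (tendsto_ep hp hM) fun N => ep_nonneg p M N

lemma T_le_one {p : List ℕ} (hp : Two p) {M : ℕ} (hM : 1 ≤ M) : T p M ≤ 1 :=
  le_of_tendsto' (tendsto_ep hp hM) fun N => ep_le_one hp hM N

lemma T_le_inv {p : List ℕ} (hp : Two p) (hne : p ≠ []) {M : ℕ} (hM : 1 ≤ M) : T p M ≤ 1 / (M : ℝ) :=
  le_of_tendsto' (tendsto_ep hp hM) fun N => ep_le_inv hp hne hM N

lemma Two_app {p : List ℕ} {s : ℕ} (hp : Two p) (hs : 2 ≤ s) : Two (p ++ [s]) := by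
  intro x hx
  rcases List.mem_append.1 hx with h | h
  · exact hp x h
  · rw [List.mem_singleton] at h
    rw [h]; exact hs

/-- the recurrence of the tails -/
lemma T_rec {p : List ℕ} {s : ℕ} (hp : Two p) (hs : 2 ≤ s) {M : ℕ} (hM : 1 ≤ M) :
    T (p ++ [s]) M = T (p ++ [s]) (M + 1) + (((M + 1 : ℕ) : ℝ) ^ s)⁻¹ * T p (M + 1) := by
  have h1 := tendsto_ep (Two_app hp hs) hM
  have h2 := tendsto_ep (Two_app hp hs) (by omega : 1 ≤ M + 1)
  have h3 := (tendsto_ep hp (by omega : 1 ≤ M + 1)).const_mul (((M + 1 : ℕ) : ℝ) ^ s)⁻¹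
  have h4 := h2.add h3
  refine tendsto_nhds_unique (h1.congr' ?_) h4
  filter_upwards [eventually_ge_atTop (M + 1)] with N hN
  exact ep_left p s hN

lemma T_zero {p : List ℕ} (hp : Two p) (hne : p ≠ []) : Tendsto (T p) atTop (𝓝 0) := by
  have h1 : Tendsto (fun M : ℕ => 1 / (M : ℝ)) atTop (𝓝 0) := tendsto_one_div_atTop_nhds_zero_nat
  refine tendsto_of_tendsto_of_tendsto_of_le_of_le' tendsto_const_nhds h1 ?_ ?_
  · filter_upwards [eventually_ge_atTop 1] with M hM
    exact T_nonneg hp hM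
  · filter_upwards [eventually_ge_atTop 1] with M hM
    exact T_le_inv hp hne hM

/-- the last letter `b` and the smaller variables -/
lemma H_zero_of_lt (q : List ℕ) : ∀ n, n < q.length → H q n = 0 := by
  induction q with
  | nil => intro n hn; simp at hn
  | cons b q ih =>
    intro n hn
    rw [List.length_cons] at hn
    rw [H_cons]
    refine Finset.sum_eq_zero fun k hk => ?_
    rw [ih k (by have := Finset.mem_range.1 hk; omega), mul_zero]

lemma summable_w {b : ℕ} {q : List ℕ} (hb : 1 ≤ b) (hq : ∀ x ∈ q, 1 ≤ x) :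
    Summable fun n : ℕ => H q n * (((n + 1 : ℕ) : ℝ) ^ b)⁻¹ * (1 / ((n + 1 : ℕ) : ℝ)) := by
  have hadm : Adm ((b + 1) :: q) := by
    refine ⟨fun a ha => ?_, fun a t h => ?_⟩
    · rcases List.mem_cons.1 ha with rfl | h
      · omega
      · exact hq a h
    · rw [← (List.cons.inj h).1]; omega
  refine summable_of_sum_range_le (c := val ((b + 1) :: q)) (fun n => ?_) fun N => ?_
  · exact mul_nonneg (mul_nonneg (H_nonneg q n) (by positivity)) (by positivity)
  · refine le_trans (le_of_eq ?_) (H_le_val _ hadm N)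
    rw [H_cons]
    refine Finset.sum_congr rfl fun n _ => ?_
    push_cast
    rw [pow_succ, mul_inv, one_div]
    ring

/-- the value of the word `u b q` -/
lemma val_eq {u : List ℕ} (hu : Two u) (hne : u ≠ []) {b : ℕ} {q : List ℕ} (hb : 1 ≤ b) (hq : ∀ x ∈ q, 1 ≤ x) :
    val (u ++ b :: q) = ∑' n : ℕ, H q n * (((n + 1 : ℕ) : ℝ) ^ b)⁻¹ * T u (n + 1) := by
  have hadm : Adm (u ++ b :: q) := by
    refine ⟨fun a ha => ?_, fun a t h => ?_⟩
    · rcases List.mem_append.1 ha with h | h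
      · exact le_trans (by norm_num) (hu a h)
      · rcases List.mem_cons.1 h with rfl | h
        · exact hb
        · exact hq a h
    · obtain ⟨s, v, rfl⟩ : ∃ s v, u = s :: v := List.exists_cons_of_ne_nil hne
      rw [List.cons_append] at h
      rw [← (List.cons.inj h).1]
      exact hu s List.mem_cons_self
  have h1 := tendsto_H _ hadm
  have h2 : Tendsto (fun N => ∑' n : ℕ, if n < N then H q n * (((n + 1 : ℕ) : ℝ) ^ b)⁻¹ * ep u (n + 1) N else 0)
      atTop (𝓝 (∑' n : ℕ, H q n * (((n + 1 : ℕ) : ℝ) ^ b)⁻¹ * T u (n + 1))) := by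
    refine tendsto_tsum_of_dominated_convergence (summable_w hb hq) (fun n => ?_) ?_
    · have h3 := (tendsto_ep hu (by omega : 1 ≤ n + 1)).const_mul (H q n * (((n + 1 : ℕ) : ℝ) ^ b)⁻¹)
      refine h3.congr' ?_
      filter_upwards [eventually_gt_atTop n] with N hN
      rw [if_pos hN]
    · filter_upwards with N n
      split_ifs with h
      · have h4 : 0 ≤ H q n * (((n + 1 : ℕ) : ℝ) ^ b)⁻¹ := mul_nonneg (H_nonneg q n) (by positivity)
        rw [Real.norm_of_nonneg (mul_nonneg h4 (ep_nonneg _ _ _))]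
        exact mul_le_mul_of_nonneg_left (ep_le_inv hu hne (by omega) N) h4
      · rw [norm_zero]
        exact mul_nonneg (mul_nonneg (H_nonneg q n) (by positivity)) (by positivity)
  refine tendsto_nhds_unique h1 (h2.congr fun N => ?_)
  rw [H_app, tsum_eq_sum (s := Finset.range N)]
  · refine Finset.sum_congr rfl fun n hn => ?_
    rw [if_pos (Finset.mem_range.1 hn)]
  · intro n hn
    rw [if_neg (by rwa [Finset.mem_range] at hn)]

end Pool.Agent.L5helper5.CS
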