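import Mathlib
import Pool.Agent.L5helper5.CS.Tail

/-!
# Expansions of the tails in inverse rising factorials
-/

set_option autoImplicit false

namespace Pool.Agent.L5helper5.CS

open Filter Topology

/-- `1 / (M (M + 1) ... (M + k - 1))` -/
noncomputable def rho (k M : ℕ) : ℝ := ∏ i ∈ Finset.range k, (((M + i : ℕ) : ℝ))⁻¹

lemma rho_zero (M : ℕ) : rho 0 M = 1 := by simp [rho]

lemma rho_succ (k M : ℕ) : rho (k + 1) M = rho k M * (((M + k : ℕ) : ℝ))⁻¹ := by
  rw [rho, rho, Finset.prod_range_succ]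

lemma rho_nonneg (k M : ℕ) : 0 ≤ rho k M := Finset.prod_nonneg fun i _ => by positivity

lemma rho_le {M : ℕ} (hM : 1 ≤ M) (k : ℕ) : rho k M ≤ ((M : ℝ) ^ k)⁻¹ := by
  induction k with
  | zero => simp [rho]
  | succ k ih =>
    rw [rho_succ, pow_succ, mul_inv]
    have hM' : (0 : ℝ) < M := by exact_mod_cast hM
    refine mul_le_mul ih ?_ (by positivity) (by positivity)
    apply inv_anti₀ hM'
    push_cast
    have : (0 : ℝ) ≤ (k : ℝ) := Nat.cast_nonneg k
    linarith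

/-- multiplication by `M` -/
lemma rho_mul {M : ℕ} (hM : 1 ≤ M) (j : ℕ) : (M : ℝ) * rho (j + 1) M = rho j M - j * rho (j + 1) M := by
  rw [rho_succ]
  have h : (((M + j : ℕ) : ℝ)) ≠ 0 := by exact_mod_cast (by omega : M + j ≠ 0)
  field_simp
  push_cast
  ring

/-- the shift -/
lemma rho_shift {M : ℕ} (hM : 1 ≤ M) (j : ℕ) : rho j (M + 1) = rho j M - j * rho (j + 1) M := by
  have h0 : (M : ℝ) ≠ 0 := by exact_mod_cast (by omega : M ≠ 0)
  have h1 : rho j (M + 1) = M * rho (j + 1) M := by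
    rw [rho, rho, Finset.prod_range_succ']
    rw [add_zero]
    rw [mul_comm, mul_assoc, inv_mul_cancel₀ h0, mul_one]
    refine Finset.prod_congr rfl fun i _ => ?_
    congr 2
    ring
  rw [h1, rho_mul hM]

/-- the expansion -/
def HasExp (f : ℕ → ℝ) (a : ℕ → ℚ) : Prop :=
  ∀ K : ℕ, ∃ C : ℝ, ∀ M : ℕ, 1 ≤ M → |f M - ∑ k ∈ Finset.range K, (a k : ℝ) * rho k M| ≤ C * ((M : ℝ) ^ K)⁻¹

/-- the coefficients of `f M / M` -/
def divc (a : ℕ → ℚ) : ℕ → ℚ
  | 0 => 0
  | k + 1 => a k + ((k : ℚ) - 1) * divc a k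

lemma divc_id {M : ℕ} (hM : 1 ≤ M) (a : ℕ → ℚ) (K : ℕ) :
    (M : ℝ) * ∑ l ∈ Finset.range (K + 1), (divc a l : ℝ) * rho l M =
      ∑ k ∈ Finset.range K, (a k : ℝ) * rho k M - ((K : ℝ) - 1) * divc a K * rho K M := by
  induction K with
  | zero => simp [divc]
  | succ K ih =>
    rw [Finset.sum_range_succ, mul_add, ih, Finset.sum_range_succ _ K]
    have h1 := rho_mul hM K
    have h2 : (M : ℝ) * ((divc a (K + 1) : ℝ) * rho (K + 1) M) =
        (divc a (K + 1) : ℝ) * ((M : ℝ) * rho (K + 1) M) := by ring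
    rw [h2, h1]
    have h3 : (divc a (K + 1) : ℝ) = a K + ((K : ℝ) - 1) * divc a K := by
      rw [divc]
      push_cast
      ring
    rw [h3]
    push_cast
    ring

lemma HasExp.div {f : ℕ → ℝ} {a : ℕ → ℚ} (h : HasExp f a) :
    HasExp (fun M => ((M : ℝ))⁻¹ * f M) (divc a) := by
  intro K
  cases K with
  | zero =>
    obtain ⟨C, hC⟩ := h 0
    refine ⟨C, fun M hM => ?_⟩
    have h1 := hC M hM
    rw [Finset.range_zero, Finset.sum_empty, sub_zero, pow_zero, inv_one, mul_one] at h1 ⊢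
    rw [abs_mul]
    have hM' : (1 : ℝ) ≤ M := by exact_mod_cast hM
    have h2 : |(M : ℝ)⁻¹| ≤ 1 := by
      rw [abs_of_nonneg (by positivity)]
      exact inv_le_one_of_one_le₀ hM'
    calc |(M : ℝ)⁻¹| * |f M| ≤ 1 * |f M| := mul_le_mul_of_nonneg_right h2 (abs_nonneg _)
      _ ≤ C := by rw [one_mul]; exact h1
  | succ K =>
    obtain ⟨C, hC⟩ := h K
    refine ⟨C + |((K : ℝ) - 1) * divc a K|, fun M hM => ?_⟩
    have hM' : (0 : ℝ) < M := by exact_mod_cast hM
    have h1 := hC M hM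
    have h2 : ((M : ℝ))⁻¹ * f M - ∑ k ∈ Finset.range (K + 1), (divc a k : ℝ) * rho k M =
        ((M : ℝ))⁻¹ * ((f M - ∑ k ∈ Finset.range K, (a k : ℝ) * rho k M) +
          ((K : ℝ) - 1) * divc a K * rho K M) := by
      have h3 := divc_id hM a K
      have h4 : ∑ k ∈ Finset.range (K + 1), (divc a k : ℝ) * rho k M =
          ((M : ℝ))⁻¹ * ((M : ℝ) * ∑ l ∈ Finset.range (K + 1), (divc a l : ℝ) * rho l M) := by
        rw [← mul_assoc, inv_mul_cancel₀ hM'.ne', one_mul]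
      rw [h4, h3]
      ring
    rw [h2, abs_mul, abs_of_nonneg (by positivity : (0 : ℝ) ≤ (M : ℝ)⁻¹), pow_succ, mul_inv, ← mul_assoc,
      mul_comm (_ * _) ((M : ℝ))⁻¹]
    refine mul_le_mul_of_nonneg_left ?_ (by positivity)
    refine (abs_add_le _ _).trans ?_
    rw [add_mul]
    refine add_le_add h1 ?_
    rw [abs_mul, abs_of_nonneg (rho_nonneg K M)]
    exact mul_le_mul_of_nonneg_left (rho_le hM K) (abs_nonneg _)

/-- the coefficients of the sums -/
def sumc (d : ℕ → ℚ) (j : ℕ) : ℚ := if j = 0 then 0 else d (j + 1) / j - d j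

/-- the partial sums of the summed expansion -/
noncomputable def GK (d : ℕ → ℚ) (K M : ℕ) : ℝ :=
  ∑ j ∈ Finset.Ico 1 K, ((d (j + 1) : ℝ) / j) * rho j (M + 1)

lemma GK_eq {d : ℕ → ℚ} (h1 : d 1 = 0) {M : ℕ} (hM : 1 ≤ M) {K : ℕ} (hK : 1 ≤ K) :
    GK d K M = ∑ j ∈ Finset.range K, (sumc d j : ℝ) * rho j M - d K * rho K M := by
  induction K, hK using Nat.le_induction with
  | base => simp [GK, sumc, h1]
  | succ K hK ih =>
    rw [GK, Finset.sum_Ico_succ_top hK, ← GK, ih, Finset.sum_range_succ, rho_shift hM K]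
    have hK0 : (K : ℝ) ≠ 0 := by exact_mod_cast (by omega : K ≠ 0)
    have h2 : (sumc d K : ℝ) = (d (K + 1) : ℝ) / K - d K := by
      rw [sumc, if_neg (by omega)]
      push_cast
      ring
    rw [h2]
    field_simp
    ring

lemma rho_diff {M : ℕ} (hM : 1 ≤ M) (j : ℕ) : rho j M - rho j (M + 1) = j * rho (j + 1) M := by
  rw [rho_shift hM j]
  ring

lemma GK_diff {d : ℕ → ℚ} (h0 : d 0 = 0) (h1 : d 1 = 0) (M : ℕ) {K : ℕ} (hK : 1 ≤ K) :
    GK d K M - GK d K (M + 1) = ∑ k ∈ Finset.range (K + 1), (d k : ℝ) * rho k (M + 1) := by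
  induction K, hK using Nat.le_induction with
  | base => simp [GK, Finset.sum_range_succ, h0, h1]
  | succ K hK ih =>
    rw [GK, GK, Finset.sum_Ico_succ_top hK, Finset.sum_Ico_succ_top hK, ← GK, ← GK, Finset.sum_range_succ,
      ← ih]
    have h2 := rho_diff (show 1 ≤ M + 1 by omega) K
    have hK0 : (K : ℝ) ≠ 0 := by exact_mod_cast (by omega : K ≠ 0)
    have h3 : (d (K + 1) : ℝ) / K * rho K (M + 1) - (d (K + 1) : ℝ) / K * rho K (M + 1 + 1) =
        (d (K + 1) : ℝ) * rho (K + 1) (M + 1) := by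
      rw [← mul_sub, h2]
      field_simp
    linarith

lemma rho_tendsto {k : ℕ} (hk : 1 ≤ k) : Tendsto (rho k) atTop (𝓝 0) := by
  have h1 : Tendsto (fun M : ℕ => ((M : ℝ))⁻¹) atTop (𝓝 0) := tendsto_inv_atTop_nhds_zero_nat
  refine tendsto_of_tendsto_of_tendsto_of_le_of_le' tendsto_const_nhds h1 ?_ ?_
  · exact Eventually.of_forall fun M => rho_nonneg k M
  · filter_upwards [eventually_ge_atTop 1] with M hM
    refine (rho_le hM k).trans ?_
    have hM' : (1 : ℝ) ≤ M := by exact_mod_cast hM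
    apply inv_anti₀ (by linarith)
    calc (M : ℝ) = (M : ℝ) ^ 1 := (pow_one _).symm
      _ ≤ (M : ℝ) ^ k := pow_le_pow_right₀ hM' hk

lemma GK_tendsto (d : ℕ → ℚ) (K : ℕ) : Tendsto (GK d K) atTop (𝓝 0) := by
  have h1 : Tendsto (fun M => ∑ j ∈ Finset.Ico 1 K, ((d (j + 1) : ℝ) / j) * rho j (M + 1)) atTop
      (𝓝 (∑ j ∈ Finset.Ico 1 K, ((d (j + 1) : ℝ) / j) * 0)) := by
    refine tendsto_finsetSum _ fun j hj => ?_
    refine Tendsto.const_mul _ ?_
    exact (rho_tendsto (Finset.mem_Ico.1 hj).1).comp (tendsto_add_atTop_nat 1)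
  simp only [mul_zero, Finset.sum_const_zero] at h1
  exact h1

/-- the telescoping bound -/
lemma tele {M : ℕ} (hM : 1 ≤ M) {K : ℕ} (hK : 1 ≤ K) :
    (((M + 1 : ℕ) : ℝ) ^ (K + 1))⁻¹ ≤ ((M : ℝ) ^ K)⁻¹ - (((M + 1 : ℕ) : ℝ) ^ K)⁻¹ := by
  have hM' : (1 : ℝ) ≤ M := by exact_mod_cast hM
  obtain ⟨k, rfl⟩ : ∃ k, K = k + 1 := ⟨K - 1, by omega⟩
  push_cast
  have hx : (0 : ℝ) < M := by linarith
  have hy : (0 : ℝ) < (M : ℝ) + 1 := by linarith
  set x : ℝ := (M : ℝ) with hxd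
  have h1 : ((x + 1) ^ k)⁻¹ ≤ (x ^ k)⁻¹ := by
    apply inv_anti₀ (by positivity)
    exact pow_le_pow_left₀ hx.le (by linarith) k
  have h2 : (x + 1)⁻¹ * (1 + (x + 1)⁻¹) ≤ x⁻¹ := by
    rw [← sub_nonneg]
    have : x⁻¹ - (x + 1)⁻¹ * (1 + (x + 1)⁻¹) = 1 / (x * (x + 1) ^ 2) := by
      field_simp
      ring
    rw [this]
    positivity
  have h3 : ((x + 1) ^ k)⁻¹ * ((x + 1)⁻¹ * (1 + (x + 1)⁻¹)) ≤ (x ^ k)⁻¹ * x⁻¹ :=
    mul_le_mul h1 h2 (by positivity) (by positivity)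
  have h4 : ((x + 1) ^ (k + 1 + 1))⁻¹ = ((x + 1) ^ k)⁻¹ * (x + 1)⁻¹ * (x + 1)⁻¹ := by
    rw [pow_succ, pow_succ, mul_inv, mul_inv]
  have h5 : ((x + 1) ^ (k + 1))⁻¹ = ((x + 1) ^ k)⁻¹ * (x + 1)⁻¹ := by rw [pow_succ, mul_inv]
  have h6 : (x ^ (k + 1))⁻¹ = (x ^ k)⁻¹ * x⁻¹ := by rw [pow_succ, mul_inv]
  rw [h4, h5, h6]
  nlinarith

/-- a sequence with small differences tending to zero is small -/
lemma small_of_diff {h : ℕ → ℝ} (hz : Tendsto h atTop (𝓝 0)) {C : ℝ} {K : ℕ} (hK : 1 ≤ K)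
    (hd : ∀ M, 1 ≤ M → |h M - h (M + 1)| ≤ C * (((M + 1 : ℕ) : ℝ) ^ (K + 1))⁻¹) :
    ∀ M, 1 ≤ M → |h M| ≤ C * ((M : ℝ) ^ K)⁻¹ := by
  have hC : 0 ≤ C := by
    have h1 := (abs_nonneg _).trans (hd 1 le_rfl)
    have h2 : (0 : ℝ) < (((1 + 1 : ℕ) : ℝ) ^ (K + 1))⁻¹ := by positivity
    by_contra hcon
    push Not at hcon
    have := mul_neg_of_neg_of_pos hcon h2
    linarith
  have hp : Tendsto (fun M : ℕ => C * ((M : ℝ) ^ K)⁻¹) atTop (𝓝 0) := by
    have h1 : Tendsto (fun M : ℕ => ((M : ℝ) ^ K)⁻¹) atTop (𝓝 0) := by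
      have := (tendsto_pow_atTop (α := ℝ) (by omega : K ≠ 0)).comp (tendsto_natCast_atTop_atTop (R := ℝ))
      exact tendsto_inv_atTop_zero.comp this
    simpa using h1.const_mul C
  have key : ∀ g : ℕ → ℝ, Tendsto g atTop (𝓝 0) →
      (∀ M, 1 ≤ M → |g M - g (M + 1)| ≤ C * (((M + 1 : ℕ) : ℝ) ^ (K + 1))⁻¹) →
      ∀ M, 1 ≤ M → g M ≤ C * ((M : ℝ) ^ K)⁻¹ := by
    intro g hg hgd M hM
    have hlim : Tendsto (fun m : ℕ => C * ((((M + m : ℕ)) : ℝ) ^ K)⁻¹ - g (M + m)) atTop (𝓝 0) := by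
      have := (hp.sub hg).comp (tendsto_add_atTop_nat M)
      rw [sub_zero] at this
      refine this.congr fun m => ?_
      simp only [Function.comp]
      rw [add_comm m M]
    have hanti : Antitone (fun m : ℕ => C * ((((M + m : ℕ)) : ℝ) ^ K)⁻¹ - g (M + m)) := by
      refine antitone_nat_of_succ_le fun m => ?_
      have h1 := hgd (M + m) (by omega)
      have h2 := mul_le_mul_of_nonneg_left (tele (show 1 ≤ M + m by omega) hK) hC
      have h3 := (abs_le.1 h1).2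
      have h4 : M + (m + 1) = M + m + 1 := by ring
      rw [h4]
      rw [mul_sub] at h2
      linarith
    have h5 := hanti.le_of_tendsto hlim 0
    simp only [add_zero] at h5
    linarith
  intro M hM
  rw [abs_le]
  constructor
  · have h1 := key (fun m => - h m) (by simpa using hz.neg) (fun M hM => by
      have := hd M hM
      rw [← abs_neg] at this
      convert this using 2
      ring) M hM
    linarith
  · exact key h hz hd M hM

lemma HasExp.sum {g D : ℕ → ℝ} {d : ℕ → ℚ} (hD : HasExp D d) (h0 : d 0 = 0) (h1 : d 1 = 0)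
    (hg : Tendsto g atTop (𝓝 0)) (hgD : ∀ M, 1 ≤ M → g M - g (M + 1) = D (M + 1)) :
    HasExp g (sumc d) := by
  have main : ∀ K, 1 ≤ K → ∃ C : ℝ, ∀ M : ℕ, 1 ≤ M →
      |g M - ∑ k ∈ Finset.range K, (sumc d k : ℝ) * rho k M| ≤ C * ((M : ℝ) ^ K)⁻¹ := by
    intro K hK
    obtain ⟨C, hC⟩ := hD (K + 1)
    have h2 := small_of_diff (h := fun M => g M - GK d K M) (C := C) (K := K)
      (by simpa using hg.sub (GK_tendsto d K)) hK (fun M hM => by
        have h3 := hC (M + 1) (by omega)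
        have h4 := GK_diff h0 h1 M hK
        have h5 := hgD M hM
        rw [← h5, ← h4] at h3
        convert h3 using 2
        ring)
    refine ⟨C + |(d K : ℝ)|, fun M hM => ?_⟩
    have h3 := h2 M hM
    have h4 := GK_eq h1 hM hK
    have h5 : g M - ∑ k ∈ Finset.range K, (sumc d k : ℝ) * rho k M = (g M - GK d K M) - d K * rho K M := by
      rw [h4]; ring
    rw [h5, add_mul]
    refine (abs_sub _ _).trans (add_le_add h3 ?_)
    rw [abs_mul, abs_of_nonneg (rho_nonneg K M)]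
    exact mul_le_mul_of_nonneg_left (rho_le hM K) (abs_nonneg _)
  intro K
  rcases Nat.eq_zero_or_pos K with rfl | hK
  · obtain ⟨C, hC⟩ := main 1 le_rfl
    refine ⟨C, fun M hM => ?_⟩
    have h2 := hC M hM
    rw [Finset.sum_range_one] at h2
    have h3 : sumc d 0 = 0 := by simp [sumc]
    rw [h3] at h2
    rw [Finset.range_zero, Finset.sum_empty, sub_zero, pow_zero, inv_one, mul_one]
    simp only [Rat.cast_zero, zero_mul, sub_zero, pow_one] at h2
    refine h2.trans ?_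
    have hM' : (1 : ℝ) ≤ M := by exact_mod_cast hM
    have hC0 : 0 ≤ C := by
      have h3 := (abs_nonneg _).trans h2
      by_contra hcon
      push Not at hcon
      have := mul_neg_of_neg_of_pos hcon (by positivity : (0 : ℝ) < (M : ℝ)⁻¹)
      linarith
    calc C * (M : ℝ)⁻¹ ≤ C * 1 := mul_le_mul_of_nonneg_left (inv_le_one_of_one_le₀ hM') hC0
      _ = C := mul_one C
  · exact main K hK

lemma HasExp.congr {f g : ℕ → ℝ} {a : ℕ → ℚ} (h : HasExp f a) (hfg : ∀ M, 1 ≤ M → f M = g M) : HasExp g a := by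
  intro K
  obtain ⟨C, hC⟩ := h K
  exact ⟨C, fun M hM => by rw [← hfg M hM]; exact hC M hM⟩

lemma HasExp.divs {f : ℕ → ℝ} {a : ℕ → ℚ} (h : HasExp f a) (s : ℕ) :
    HasExp (fun M => ((M : ℝ) ^ s)⁻¹ * f M) (divc^[s] a) := by
  induction s with
  | zero => simpa using h
  | succ s ih =>
    rw [Function.iterate_succ_apply']
    refine ih.div.congr fun M _ => ?_
    rw [pow_succ, mul_inv]
    ring

/-- the coefficients of the tails (the word is reversed) -/
def cf : List ℕ → ℕ → ℚ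
  | [] => fun k => if k = 0 then 1 else 0
  | s :: v => sumc (divc^[s] (cf v))

lemma hasExp_one : HasExp (fun _ => 1) (cf []) := by
  intro K
  cases K with
  | zero => exact ⟨1, fun M _ => by simp⟩
  | succ K =>
    refine ⟨0, fun M _ => ?_⟩
    rw [Finset.sum_range_succ']
    simp [cf, rho_zero]

lemma hasExp_T (v : List ℕ) (hv : Two v) : HasExp (T v.reverse) (cf v) := by
  induction v with
  | nil =>
    refine hasExp_one.congr fun M _ => ?_
    rw [List.reverse_nil, T_nil]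
  | cons s v ih =>
    have hs : 2 ≤ s := hv s List.mem_cons_self
    have hv' : Two v := fun x hx => hv x (List.mem_cons_of_mem _ hx)
    have hvr : Two v.reverse := fun x hx => hv' x (List.mem_reverse.1 hx)
    rw [List.reverse_cons, cf]
    obtain ⟨t, rfl⟩ : ∃ t, s = t + 2 := ⟨s - 2, by omega⟩
    refine ((ih hv').divs (t + 2)).sum ?_ ?_ (T_zero (Two_app hvr hs) (by simp)) ?_
    · rw [Function.iterate_succ_apply', divc]
    · rw [Function.iterate_succ_apply', Function.iterate_succ_apply', divc, divc, divc]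
      simp
    · intro M hM
      have h1 := T_rec hvr hs hM
      linarith

end Pool.Agent.L5helper5.CS
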