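import Mathlib
import Pool.Agent.L5helper5.CS.Exp
import Pool.Agent.TH507.ZS.HSb

/-!
# The tails are linearly independent modulo rapidly decreasing sequences
-/

set_option autoImplicit false

namespace Pool.Agent.L5helper5.CS

open Filter Topology Polynomial Asymptotics
open Pool.Agent.TH507.HS (ev ev_ne_zero gr gr_eq gr_add gr_sub gr_mul gr_neg gr_zero gr_one gr_sum gr_pow KN kq
  kq_apply hyp no_tel sig sig_gr Hyp W mem_W W_mono mul_mem_W ev_ne ev_zero ev_one)

lemma pow_O {K L : ℕ} (h : K ≤ L) : (fun m : ℕ => (m : ℝ) ^ K) =O[atTop] fun m : ℕ => (m : ℝ) ^ L := by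
  refine IsBigO.of_bound 1 ?_
  filter_upwards [eventually_ge_atTop 1] with m hm
  have hm' : (1 : ℝ) ≤ m := by exact_mod_cast hm
  rw [one_mul, Real.norm_of_nonneg (by positivity), Real.norm_of_nonneg (by positivity)]
  exact pow_le_pow_right₀ hm' h

/-- sequences of polynomial growth -/
def B : Subring (ℕ → ℝ) where
  carrier := {f | ∃ K : ℕ, f =O[atTop] fun m : ℕ => (m : ℝ) ^ K}
  zero_mem' := ⟨0, isBigO_zero _ _⟩
  one_mem' := ⟨0, by
    refine IsBigO.of_bound 1 (Eventually.of_forall fun m => ?_)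
    simp⟩
  add_mem' := by
    rintro f g ⟨K, hK⟩ ⟨L, hL⟩
    exact ⟨K + L, (hK.trans (pow_O (by omega))).add (hL.trans (pow_O (by omega)))⟩
  mul_mem' := by
    rintro f g ⟨K, hK⟩ ⟨L, hL⟩
    refine ⟨K + L, (hK.mul hL).congr_right fun m => ?_⟩
    rw [pow_add]
  neg_mem' := by
    rintro f ⟨K, hK⟩
    exact ⟨K, hK.neg_left⟩

/-- rapidly decreasing sequences -/
def Dec (f : ℕ → ℝ) : Prop := ∀ K : ℕ, f =O[atTop] fun m : ℕ => ((m : ℝ) ^ K)⁻¹

lemma Dec.of_ev {f : ℕ → ℝ} (h : ∀ᶠ m in atTop, f m = 0) : Dec f := by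
  intro K
  refine IsBigO.of_bound 1 ?_
  filter_upwards [h] with m hm
  rw [hm, norm_zero]
  positivity

lemma Dec.congr {f g : ℕ → ℝ} (hf : Dec f) (h : f =ᶠ[atTop] g) : Dec g := fun K => (hf K).congr' h EventuallyEq.rfl

lemma Dec.shift {f : ℕ → ℝ} (hf : Dec f) : Dec fun m => f (m + 1) := by
  intro K
  refine ((hf K).comp_tendsto (tendsto_add_atTop_nat 1)).trans ?_
  refine IsBigO.of_bound 1 ?_
  filter_upwards [eventually_ge_atTop 1] with m hm
  have hm' : (1 : ℝ) ≤ m := by exact_mod_cast hm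
  rw [one_mul, Function.comp, Real.norm_of_nonneg (by positivity), Real.norm_of_nonneg (by positivity)]
  apply inv_anti₀ (by positivity)
  push_cast
  exact pow_le_pow_left₀ (by positivity) (by linarith) K

/-- the ideal -/
def I : Ideal B where
  carrier := {f | Dec (f : ℕ → ℝ)}
  zero_mem' := fun K => isBigO_zero _ _
  add_mem' := by
    intro f g hf hg K
    exact (hf K).add (hg K)
  smul_mem' := by
    rintro ⟨c, L, hc⟩ f hf K
    have h1 := hc.mul (hf (K + L))
    refine h1.trans ?_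
    refine IsBigO.of_bound 1 ?_
    filter_upwards [eventually_ge_atTop 1] with m hm
    have hm' : (m : ℝ) ≠ 0 := by exact_mod_cast (by omega : m ≠ 0)
    rw [one_mul, pow_add, mul_inv]
    apply le_of_eq
    congr 1
    field_simp

/-- the ring -/
abbrev RR := B ⧸ I

lemma shift_mem {f : ℕ → ℝ} (hf : f ∈ B) : (fun m => f (m + 1)) ∈ B := by
  obtain ⟨K, hK⟩ := hf
  refine ⟨K, (hK.comp_tendsto (tendsto_add_atTop_nat 1)).trans ?_⟩
  refine IsBigO.of_bound (2 ^ K) ?_
  filter_upwards [eventually_ge_atTop 1] with m hm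
  have hm' : (1 : ℝ) ≤ m := by exact_mod_cast hm
  rw [Function.comp, Real.norm_of_nonneg (by positivity), Real.norm_of_nonneg (by positivity), ← mul_pow]
  push_cast
  exact pow_le_pow_left₀ (by positivity) (by linarith) K

/-- the shift -/
def shiftB : B →+* B where
  toFun f := ⟨fun m => (f : ℕ → ℝ) (m + 1), shift_mem f.2⟩
  map_one' := rfl
  map_zero' := rfl
  map_mul' _ _ := rfl
  map_add' _ _ := rfl

/-- the shift on the quotient -/
noncomputable def sg : RR →+* RR := Ideal.quotientMap I shiftB (by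
  intro f hf
  have hf' : Dec (f : ℕ → ℝ) := hf
  exact hf'.shift)

/-- the class of a sequence -/
noncomputable def el (f : ℕ → ℝ) (hf : f ∈ B) : RR := Ideal.Quotient.mk I ⟨f, hf⟩

lemma el_eq {f g : ℕ → ℝ} (hf : f ∈ B) (hg : g ∈ B) : el f hf = el g hg ↔ Dec fun m => f m - g m := by
  rw [el, el, Ideal.Quotient.eq]
  exact Iff.rfl

lemma el_congr {f g : ℕ → ℝ} (hf : f ∈ B) (hg : g ∈ B) (h : ∀ᶠ m in atTop, f m = g m) : el f hf = el g hg := by
  rw [el_eq]
  refine Dec.of_ev ?_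
  filter_upwards [h] with m hm
  rw [hm, sub_self]

lemma el_surj (x : RR) : ∃ f, ∃ hf : f ∈ B, x = el f hf := by
  obtain ⟨⟨f, hf⟩, rfl⟩ := Ideal.Quotient.mk_surjective x
  exact ⟨f, hf, rfl⟩

lemma el_add {f g : ℕ → ℝ} (hf : f ∈ B) (hg : g ∈ B) :
    el f hf + el g hg = el (fun m => f m + g m) (B.add_mem hf hg) := rfl

lemma el_sub {f g : ℕ → ℝ} (hf : f ∈ B) (hg : g ∈ B) :
    el f hf - el g hg = el (fun m => f m - g m) (B.sub_mem hf hg) := rfl

lemma el_mul {f g : ℕ → ℝ} (hf : f ∈ B) (hg : g ∈ B) :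
    el f hf * el g hg = el (fun m => f m * g m) (B.mul_mem hf hg) := rfl

lemma el_neg {f : ℕ → ℝ} (hf : f ∈ B) : - el f hf = el (fun m => - f m) (B.neg_mem hf) := rfl

lemma el_one : el (fun _ => 1) B.one_mem = 1 := rfl

lemma el_zero : el (fun _ => 0) B.zero_mem = 0 := rfl

lemma sg_el {f : ℕ → ℝ} (hf : f ∈ B) : sg (el f hf) = el (fun m => f (m + 1)) (shift_mem hf) := rfl

/-- rational functions -/
def IsRat (f : ℕ → ℝ) : Prop := ∃ g : ℕ → ℚ, gr g ∈ KN 1 le_rfl ∧ ∀ᶠ m in atTop, f m = (g m : ℝ)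

lemma evB (P : ℤ[X]) : (fun m : ℕ => ((ev P (1 + 1 * m) : ℚ) : ℝ)) ∈ B := by
  induction P using Polynomial.induction_on' with
  | add P Q hP hQ =>
    have h1 := B.add_mem hP hQ
    convert h1 using 1
    funext m
    simp [ev]
  | monomial n a =>
    refine ⟨n, IsBigO.of_bound (|(a : ℝ)| * 2 ^ n) ?_⟩
    filter_upwards [eventually_ge_atTop 1] with m hm
    have hm' : (1 : ℝ) ≤ m := by exact_mod_cast hm
    have h1 : ((ev (monomial n a) (1 + 1 * m) : ℚ) : ℝ) = (a : ℝ) * (1 + (m : ℝ)) ^ n := by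
      simp [ev]
    rw [h1, norm_mul, Real.norm_of_nonneg (show (0 : ℝ) ≤ (1 + (m : ℝ)) ^ n by positivity),
      Real.norm_of_nonneg (show (0 : ℝ) ≤ (m : ℝ) ^ n by positivity), mul_assoc, ← mul_pow,
      Real.norm_eq_abs]
    exact mul_le_mul_of_nonneg_left (pow_le_pow_left₀ (by positivity) (by linarith) n) (abs_nonneg _)

lemma isRat_iff (f : ℕ → ℝ) : IsRat f ↔ ∃ P Q : ℤ[X], Q ≠ 0 ∧
    ∀ᶠ m in atTop, f m = ((ev P (1 + 1 * m) / ev Q (1 + 1 * m) : ℚ) : ℝ) := by
  constructor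
  · rintro ⟨g, ⟨P, Q, hQ, hg⟩, hf⟩
    refine ⟨P, Q, hQ, ?_⟩
    rw [gr_eq] at hg
    filter_upwards [hg, hf] with m h1 h2
    rw [h2, h1]
  · rintro ⟨P, Q, hQ, hf⟩
    exact ⟨_, ⟨P, Q, hQ, rfl⟩, hf⟩

lemma evQ_ge {Q : ℤ[X]} (hQ : Q ≠ 0) : ∀ᶠ m in atTop, (1 : ℝ) ≤ |((ev Q (1 + 1 * m) : ℚ) : ℝ)| := by
  filter_upwards [ev_ne 1 le_rfl hQ] with m hm
  rw [ev] at hm ⊢
  have h1 : (Q.eval (((1 + 1 * m : ℕ)) : ℤ)) ≠ 0 := by exact_mod_cast hm
  have h2 := Int.one_le_abs h1
  push_cast at h2 ⊢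
  exact_mod_cast h2

lemma IsRat.mem {f : ℕ → ℝ} (h : IsRat f) : f ∈ B := by
  rw [isRat_iff] at h
  obtain ⟨P, Q, hQ, hf⟩ := h
  obtain ⟨K, hK⟩ := evB P
  refine ⟨K, IsBigO.trans ?_ hK⟩
  refine IsBigO.of_bound 1 ?_
  filter_upwards [hf, evQ_ge hQ] with m h1 h2
  have h3 : ‖f m‖ = |((ev P (1 + 1 * m) : ℚ) : ℝ)| / |((ev Q (1 + 1 * m) : ℚ) : ℝ)| := by
    rw [h1, Rat.cast_div, Real.norm_eq_abs, abs_div]
  rw [h3, Real.norm_eq_abs]
  exact (div_le_self (abs_nonneg _) h2).trans (le_of_eq (one_mul _).symm)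

lemma IsRat.zero_of_dec {f : ℕ → ℝ} (h : IsRat f) (hd : Dec f) : ∀ᶠ m in atTop, f m = 0 := by
  rw [isRat_iff] at h
  obtain ⟨P, Q, hQ, hf⟩ := h
  by_cases hP : P = 0
  · filter_upwards [hf] with m hm
    rw [hm, hP, ev_zero, zero_div, Rat.cast_zero]
  · exfalso
    obtain ⟨K, hK⟩ := evB Q
    obtain ⟨C, hC, h1⟩ := hK.exists_pos
    obtain ⟨C', hC', h2⟩ := (hd (K + 1)).exists_pos
    have h3 : Tendsto (fun m : ℕ => (m : ℝ)) atTop atTop := tendsto_natCast_atTop_atTop
    have h4 := h3.eventually_gt_atTop (C * C')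
    obtain ⟨m, e1, e2, e3, e4, e5, e6, e7⟩ :=
      (h1.bound.and (h2.bound.and (hf.and ((evQ_ge hP).and ((evQ_ge hQ).and (h4.and
        (eventually_ge_atTop 1))))))).exists
    have hm : (1 : ℝ) ≤ m := by exact_mod_cast e7
    rw [e3] at e2
    push_cast at e2
    rw [norm_div, norm_inv, Real.norm_of_nonneg (show (0 : ℝ) ≤ (m : ℝ) ^ (K + 1) by positivity)] at e2
    rw [Real.norm_of_nonneg (show (0 : ℝ) ≤ (m : ℝ) ^ K by positivity)] at e1
    rw [Real.norm_eq_abs] at e1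
    rw [Real.norm_eq_abs, Real.norm_eq_abs] at e2
    set p := |((ev P (1 + 1 * m) : ℚ) : ℝ)| with hp
    set q := |((ev Q (1 + 1 * m) : ℚ) : ℝ)| with hq
    have hq0 : 0 < q := by linarith
    have hmK : (0 : ℝ) < (m : ℝ) ^ K := by positivity
    rw [div_le_iff₀ hq0, pow_succ, mul_inv] at e2
    have e8 : C' * (((m : ℝ) ^ K)⁻¹ * (m : ℝ)⁻¹) * q ≤ C' * (((m : ℝ) ^ K)⁻¹ * (m : ℝ)⁻¹) * (C * (m : ℝ) ^ K) :=
      mul_le_mul_of_nonneg_left e1 (by positivity)
    have e9 : C' * (((m : ℝ) ^ K)⁻¹ * (m : ℝ)⁻¹) * (C * (m : ℝ) ^ K) = C * C' * (m : ℝ)⁻¹ := by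
      field_simp
    have e10 : C * C' * (m : ℝ)⁻¹ < 1 := by
      rw [← div_eq_mul_inv, div_lt_one (by linarith)]
      exact e6
    linarith

lemma IsRat.add {f g : ℕ → ℝ} (hf : IsRat f) (hg : IsRat g) : IsRat fun m => f m + g m := by
  obtain ⟨f', h1, h2⟩ := hf
  obtain ⟨g', h3, h4⟩ := hg
  refine ⟨fun m => f' m + g' m, ?_, ?_⟩
  · rw [← gr_add]; exact (KN 1 le_rfl).add_mem h1 h3
  · filter_upwards [h2, h4] with m h5 h6
    rw [h5, h6, Rat.cast_add]

lemma IsRat.mul {f g : ℕ → ℝ} (hf : IsRat f) (hg : IsRat g) : IsRat fun m => f m * g m := by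
  obtain ⟨f', h1, h2⟩ := hf
  obtain ⟨g', h3, h4⟩ := hg
  refine ⟨fun m => f' m * g' m, ?_, ?_⟩
  · rw [← gr_mul]; exact (KN 1 le_rfl).mul_mem h1 h3
  · filter_upwards [h2, h4] with m h5 h6
    rw [h5, h6, Rat.cast_mul]

lemma IsRat.neg {f : ℕ → ℝ} (hf : IsRat f) : IsRat fun m => - f m := by
  obtain ⟨f', h1, h2⟩ := hf
  refine ⟨fun m => - f' m, ?_, ?_⟩
  · rw [← gr_neg]; exact (KN 1 le_rfl).neg_mem h1
  · filter_upwards [h2] with m h5
    rw [h5, Rat.cast_neg]

lemma IsRat.shift {f : ℕ → ℝ} (hf : IsRat f) : IsRat fun m => f (m + 1) := by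
  obtain ⟨f', h1, h2⟩ := hf
  refine ⟨fun m => f' (m + 1), ?_, ?_⟩
  · rw [← sig_gr]; exact (hyp 1 le_rfl).stable _ h1
  · exact (tendsto_add_atTop_nat 1).eventually h2

lemma isRat_const (q : ℚ) : IsRat fun _ => (q : ℝ) := by
  refine ⟨fun _ => q, ⟨C q.num, C (q.den : ℤ), ?_, ?_⟩, Eventually.of_forall fun _ => rfl⟩
  · rw [Ne, C_eq_zero]
    exact_mod_cast q.den_nz
  · congr 1
    funext m
    simp [ev, Rat.num_div_den]

/-- the letters -/
noncomputable def fl (a : ℕ) (m : ℕ) : ℝ := - (((m + 1 : ℕ) : ℝ) ^ (a + 2))⁻¹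

lemma isRat_fl (a : ℕ) : IsRat (fl a) := by
  rw [isRat_iff]
  refine ⟨-1, X ^ (a + 2), pow_ne_zero _ X_ne_zero, Eventually.of_forall fun m => ?_⟩
  simp [ev, fl]
  rw [add_comm (1 : ℝ) (m : ℝ), neg_div, one_div]

/-- the subring of rational functions -/
def KR : Subring RR where
  carrier := {x | ∃ f, ∃ hf : IsRat f, x = el f hf.mem}
  zero_mem' := ⟨fun _ => 0, by simpa using isRat_const 0, rfl⟩
  one_mem' := ⟨fun _ => 1, by simpa using isRat_const 1, rfl⟩
  add_mem' := by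
    rintro _ _ ⟨f, hf, rfl⟩ ⟨g, hg, rfl⟩
    exact ⟨_, hf.add hg, rfl⟩
  mul_mem' := by
    rintro _ _ ⟨f, hf, rfl⟩ ⟨g, hg, rfl⟩
    exact ⟨_, hf.mul hg, rfl⟩
  neg_mem' := by
    rintro _ ⟨f, hf, rfl⟩
    exact ⟨_, hf.neg, rfl⟩

/-- constants -/
noncomputable def kR : ℚ →+* RR where
  toFun q := el (fun _ => (q : ℝ)) (isRat_const q).mem
  map_one' := el_congr _ B.one_mem (Eventually.of_forall fun _ => Rat.cast_one)
  map_zero' := el_congr _ B.zero_mem (Eventually.of_forall fun _ => Rat.cast_zero)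
  map_mul' p q := by
    rw [el_mul]
    exact el_congr _ _ (Eventually.of_forall fun _ => Rat.cast_mul p q)
  map_add' p q := by
    rw [el_add]
    exact el_congr _ _ (Eventually.of_forall fun _ => Rat.cast_add p q)

lemma kR_apply (q : ℚ) : kR q = el (fun _ => (q : ℝ)) (isRat_const q).mem := rfl

/-- the word with letters at least two -/
def up (v : List ℕ) : List ℕ := v.map (· + 2)

lemma up_two (v : List ℕ) : Two (up v) := by
  intro x hx
  obtain ⟨y, -, rfl⟩ := List.mem_map.1 hx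
  omega

lemma up_two_rev (v : List ℕ) : Two (up v).reverse := fun x hx => up_two v x (List.mem_reverse.1 hx)

lemma T_mem (v : List ℕ) : T (up v).reverse ∈ B := by
  refine ⟨0, IsBigO.of_bound 1 ?_⟩
  filter_upwards [eventually_ge_atTop 1] with m hm
  rw [Real.norm_of_nonneg (T_nonneg (up_two_rev v) hm)]
  simpa using T_le_one (up_two_rev v) hm

/-- the tails -/
noncomputable def yR (v : List ℕ) : RR := el (T (up v).reverse) (T_mem v)

lemma yR_step (a : ℕ) (v : List ℕ) : sg (yR (a :: v)) - yR (a :: v) = el (fl a) (isRat_fl a).mem * sg (yR v) := by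
  rw [yR, yR, sg_el, sg_el, el_sub, el_mul]
  refine el_congr _ _ ?_
  filter_upwards [eventually_ge_atTop 1] with m hm
  have h1 : (up (a :: v)).reverse = (up v).reverse ++ [a + 2] := by
    rw [up, List.map_cons, List.reverse_cons, ← up]
  rw [h1]
  have h2 := T_rec (up_two_rev v) (show 2 ≤ a + 2 by omega) hm
  rw [h2, fl]
  ring

lemma yR_sub (v : List ℕ) : sg (yR v) - yR v ∈ W KR yR v.length := by
  induction v with
  | nil =>
    have h1 : sg (yR []) = yR [] := by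
      rw [yR, sg_el]
      refine el_congr _ _ (Eventually.of_forall fun m => ?_)
      rw [up, List.map_nil, List.reverse_nil, T_nil, T_nil]
    rw [h1, sub_self]
    exact (W _ _ _).zero_mem
  | cons a v ih =>
    rw [yR_step]
    have h1 := W_mono (K := KR) (y := yR) (Nat.le_succ v.length) ih
    have h2 : yR v ∈ W KR yR (v.length + 1) := mem_W (Nat.lt_succ_self _)
    have h3 := (W KR yR _).add_mem h1 h2
    rw [sub_add_cancel] at h3
    exact mul_mem_W ⟨_, isRat_fl a, rfl⟩ h3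

lemma el_sum {ι : Type*} (A : Finset ι) (f : ι → ℕ → ℝ) (hf : ∀ i, f i ∈ B) (hs : (fun m => ∑ i ∈ A, f i m) ∈ B) :
    el (fun m => ∑ i ∈ A, f i m) hs = ∑ i ∈ A, el (f i) (hf i) := by
  classical
  induction A using Finset.induction_on with
  | empty => rw [Finset.sum_empty, ← el_zero]; exact el_congr _ _ (Eventually.of_forall fun m => by simp)
  | insert x A hx ih =>
    have hs' : (fun m => ∑ i ∈ A, f i m) ∈ B := by
      have := B.sum_mem (t := A) (f := f) fun i _ => hf i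
      convert this using 1
      funext m
      simp
    rw [Finset.sum_insert hx, ← ih hs', el_add]
    exact el_congr _ _ (Eventually.of_forall fun m => by rw [Finset.sum_insert hx])

/-- the letters as positive numbers -/
def emb : ℕ ↪ ℕ+ := ⟨fun a => Nat.succPNat (a + 1), fun a b hab => by
  have := congrArg (fun x : ℕ+ => (x : ℕ)) hab
  simp only [Nat.succPNat_coe] at this
  omega⟩

lemma emb_coe (a : ℕ) : ((emb a : ℕ+) : ℕ) = a + 2 := rfl

theorem hypR : Hyp KR yR sg (fun a => el (fl a) (isRat_fl a).mem) kR where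
  inv := by
    rintro _ ⟨f, hf, rfl⟩ hne
    obtain ⟨g, hg, hfg⟩ := id hf
    have hg0 : gr g ≠ 0 := by
      intro h0
      apply hne
      rw [← el_zero]
      refine el_congr _ _ ?_
      rw [← gr_zero, gr_eq] at h0
      filter_upwards [h0, hfg] with m h1 h2
      rw [h2, h1, Rat.cast_zero]
    obtain ⟨x', hx', hx⟩ := (hyp 1 le_rfl).inv _ hg hg0
    obtain ⟨P, Q, hQ, rfl⟩ := id hx'
    have hr : IsRat (fun m => ((ev P (1 + 1 * m) / ev Q (1 + 1 * m) : ℚ) : ℝ)) := ⟨_, hx', Eventually.of_forall fun _ => rfl⟩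
    refine ⟨el _ hr.mem, ⟨_, hr, rfl⟩, ?_⟩
    rw [el_mul, ← el_one]
    refine el_congr _ _ ?_
    rw [gr_mul, ← gr_one, gr_eq] at hx
    filter_upwards [hx, hfg] with m h1 h2
    rw [h2, ← Rat.cast_mul, h1, Rat.cast_one]
  nontriv := by
    rw [← el_one, ← el_zero, Ne, el_eq]
    intro h
    have h1 : IsRat fun _ : ℕ => (1 : ℝ) - 0 := by simpa using isRat_const 1
    obtain ⟨m, hm⟩ := (h1.zero_of_dec h).exists
    norm_num at hm
  stable := by
    rintro _ ⟨f, hf, rfl⟩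
    exact ⟨_, hf.shift, rfl⟩
  fK := fun a => ⟨_, isRat_fl a, rfl⟩
  const := by
    rintro _ ⟨f, hf, rfl⟩ hx
    rw [sg_el, el_eq] at hx
    have h1 : IsRat fun m => f (m + 1) - f m := by
      have := hf.shift.add hf.neg
      simpa [sub_eq_add_neg] using this
    have h2 := h1.zero_of_dec hx
    obtain ⟨g, hg, hfg⟩ := hf
    obtain ⟨m0, hm0⟩ := (h2.and hfg).exists_forall_of_atTop
    refine ⟨g m0, ?_⟩
    rw [kR_apply]
    refine el_congr _ _ ?_
    filter_upwards [eventually_ge_atTop m0] with m hm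
    induction m, hm using Nat.le_induction with
    | base => exact (hm0 m0 le_rfl).2
    | succ m hm ih =>
      have := (hm0 m hm).1
      linarith
  nil := by
    rw [yR, ← el_one]
    refine el_congr _ _ (Eventually.of_forall fun m => ?_)
    rw [up, List.map_nil, List.reverse_nil, T_nil]
  recu := by
    intro a w
    rw [yR_step, ← mul_sub]
    exact mul_mem_W ⟨_, isRat_fl a, rfl⟩ (yR_sub w)
  tel := by
    rintro A c ⟨a0, ha0, hc0⟩ _ ⟨f, hf, rfl⟩ hrel
    have hall : ∀ a, IsRat fun m => (c a : ℝ) * fl a m := fun a => (isRat_const (c a)).mul (isRat_fl a)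
    have hsumB : ∀ A : Finset ℕ, IsRat fun m => ∑ a ∈ A, (c a : ℝ) * fl a m := by
      classical
      intro A
      induction A using Finset.induction_on with
      | empty => simpa using isRat_const 0
      | insert x A hx ih =>
        have := (hall x).add ih
        convert this using 1
        funext m
        rw [Finset.sum_insert hx]
    have h1 : ∑ a ∈ A, kR (c a) * el (fl a) (isRat_fl a).mem = el (fun m => ∑ a ∈ A, (c a : ℝ) * fl a m) (hsumB A).mem := by
      rw [el_sum A (fun a m => (c a : ℝ) * fl a m) fun a => (hall a).mem]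
      exact Finset.sum_congr rfl fun a _ => rfl
    rw [h1, sg_el, el_sub, el_eq] at hrel
    have h2 : IsRat fun m => f (m + 1) - f m - ∑ a ∈ A, (c a : ℝ) * fl a m := by
      have := (hf.shift.add hf.neg).add (hsumB A).neg
      simpa [sub_eq_add_neg] using this
    have h3 := h2.zero_of_dec hrel
    rw [isRat_iff] at hf
    obtain ⟨P, Q, hQ, hfe⟩ := hf
    have hfe' := (tendsto_add_atTop_nat 1).eventually hfe
    obtain ⟨m0, hm0⟩ := (h3.and (hfe.and hfe')).exists_forall_of_atTop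
    have key := no_tel 1 le_rfl (A.map emb) (fun b => - c ((b : ℕ) - 2)) ⟨emb a0,
      Finset.mem_map_of_mem _ ha0, by simpa [emb_coe] using hc0⟩ P Q hQ m0
    refine key fun m hm => ?_
    obtain ⟨e1, e2, e3⟩ := hm0 m hm
    rw [Finset.sum_map]
    have e4 : ((ev P (1 + 1 * (m + 1)) / ev Q (1 + 1 * (m + 1)) - ev P (1 + 1 * m) / ev Q (1 + 1 * m) : ℚ) : ℝ) =
        ((∑ x ∈ A, - c x * ∑ j ∈ Finset.range 1, (1 / ((1 + 1 * m + j : ℕ) : ℚ)) ^ (x + 2) : ℚ) : ℝ) := by
      rw [Rat.cast_sub, ← e2, ← e3]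
      push_cast
      have e5 : f (m + 1) - f m = ∑ a ∈ A, (c a : ℝ) * fl a m := by linarith
      rw [e5]
      refine Finset.sum_congr rfl fun a _ => ?_
      rw [fl]
      simp
      left
      rw [add_comm (1 : ℝ)]
    have e6 := Rat.cast_injective e4
    rw [e6]
    refine Finset.sum_congr rfl fun a _ => ?_
    rw [emb_coe]
    simp

/-- a combination of the coefficient sequences vanishing identically is trivial -/
theorem coef_indep (U : Finset (List ℕ)) (c : List ℕ → ℚ)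
    (h : ∀ k, ∑ v ∈ U, c v * cf (up v) k = 0) : ∀ v ∈ U, c v = 0 := by
  classical
  have hlen : ∃ t, ∀ w ∈ U, w.length < t := by
    refine ⟨∑ w ∈ U, w.length + 1, fun w hw => ?_⟩
    have := Finset.single_le_sum (f := fun w : List ℕ => w.length) (fun _ _ => Nat.zero_le _) hw
    omega
  obtain ⟨t, ht⟩ := hlen
  have h1 := hypR.indep t U (fun u => kR (c u)) ht (fun w => ⟨_, isRat_const _, rfl⟩) ?_
  · intro v hv
    have h2 := h1 v hv
    rw [kR_apply, ← el_zero, el_eq] at h2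
    have h3 : IsRat fun _ : ℕ => (c v : ℝ) - 0 := by simpa using isRat_const (c v)
    obtain ⟨m, hm⟩ := (h3.zero_of_dec h2).exists
    rw [sub_zero] at hm
    exact_mod_cast hm
  · have hm : ∀ v, (fun m => (c v : ℝ) * T (up v).reverse m) ∈ B := fun v =>
      B.mul_mem (isRat_const (c v)).mem (T_mem v)
    have hs : (fun m => ∑ v ∈ U, (c v : ℝ) * T (up v).reverse m) ∈ B := by
      have := B.sum_mem (t := U) (f := fun v m => (c v : ℝ) * T (up v).reverse m) fun i _ => hm i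
      convert this using 1
      funext m
      simp
    have h2 : ∑ v ∈ U, kR (c v) * yR v = el (fun m => ∑ v ∈ U, (c v : ℝ) * T (up v).reverse m) hs := by
      rw [el_sum U (fun v m => (c v : ℝ) * T (up v).reverse m) hm]
      exact Finset.sum_congr rfl fun v _ => rfl
    rw [h2, ← el_zero, el_eq]
    intro K
    have hex : ∀ v, ∃ C : ℝ, ∀ M : ℕ, 1 ≤ M →
        |T (up v).reverse M - ∑ k ∈ Finset.range K, (cf (up v) k : ℝ) * rho k M| ≤ C * ((M : ℝ) ^ K)⁻¹ :=
      fun v => hasExp_T (up v) (up_two v) K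
    choose C hC using hex
    refine IsBigO.of_bound (∑ v ∈ U, |(c v : ℝ)| * C v) ?_
    filter_upwards [eventually_ge_atTop 1] with M hM
    have h3 : ∑ v ∈ U, (c v : ℝ) * T (up v).reverse M - 0 =
        ∑ v ∈ U, (c v : ℝ) * (T (up v).reverse M - ∑ k ∈ Finset.range K, (cf (up v) k : ℝ) * rho k M) := by
      have h4 : ∑ v ∈ U, (c v : ℝ) * ∑ k ∈ Finset.range K, (cf (up v) k : ℝ) * rho k M = 0 := by
        have h5 : ∑ v ∈ U, (c v : ℝ) * ∑ k ∈ Finset.range K, (cf (up v) k : ℝ) * rho k M =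
            ∑ k ∈ Finset.range K, ((∑ v ∈ U, c v * cf (up v) k : ℚ) : ℝ) * rho k M := by
          simp only [Finset.mul_sum]
          rw [Finset.sum_comm]
          refine Finset.sum_congr rfl fun k _ => ?_
          push_cast
          rw [Finset.sum_mul]
          refine Finset.sum_congr rfl fun v _ => ?_
          ring
        rw [h5]
        refine Finset.sum_eq_zero fun k _ => ?_
        rw [h k, Rat.cast_zero, zero_mul]
      simp only [mul_sub, Finset.sum_sub_distrib]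
      rw [h4]
    rw [h3]
    refine (norm_sum_le _ _).trans ?_
    rw [Finset.sum_mul, Real.norm_of_nonneg (show (0 : ℝ) ≤ ((M : ℝ) ^ K)⁻¹ by positivity)]
    refine Finset.sum_le_sum fun v _ => ?_
    rw [norm_mul, mul_assoc, Real.norm_eq_abs, Real.norm_eq_abs]
    exact mul_le_mul_of_nonneg_left (hC v M hM) (abs_nonneg _)

end Pool.Agent.L5helper5.CS
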