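import Mathlib
import Pool.Agent.L5helper5.CS.Ring

/-!
# Linear forms in the multiple zeta values `ζ(u q)` for a common last part `q`
-/

set_option autoImplicit false

namespace Pool.Agent.L5helper5.CS

open Filter Topology
open Pool.Agent.H447R2.MZ (H H_nil H_cons H_cons_zero H_cons_succ H_nonneg H_mono Adm val tendsto_H H_le_val)

/-- finitely many coefficients suffice -/
lemma coef_fin (U : Finset (List ℕ)) : ∃ J : ℕ, 1 ≤ J ∧ ∀ c : List ℕ → ℚ,
    (∀ k < J, ∑ v ∈ U, c v * cf (up v) k = 0) → ∀ v ∈ U, c v = 0 := by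
  classical
  let K : ℕ → Submodule ℚ (U → ℚ) := fun M =>
    { carrier := {c | ∀ n < M, ∑ u : U, c u * cf (up u.1) n = 0}
      zero_mem' := by intro n _; simp
      add_mem' := by
        intro a b ha hb n hn
        have := ha n hn
        have := hb n hn
        simp only [Pi.add_apply, add_mul, Finset.sum_add_distrib]
        rw [ha n hn, hb n hn, add_zero]
      smul_mem' := by
        intro q a ha n hn
        simp only [Pi.smul_apply, smul_eq_mul, mul_assoc]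
        rw [← Finset.mul_sum, ha n hn, mul_zero] }
  let F : ℕ →o (Submodule ℚ (U → ℚ))ᵒᵈ :=
    ⟨fun M => OrderDual.toDual (K M), fun a b hab c hc n hn => hc n (hn.trans_le hab)⟩
  obtain ⟨M, hM⟩ := IsArtinian.monotone_stabilizes F
  refine ⟨M + 1, by omega, fun c hc => ?_⟩
  have h1 : (fun u : U => c u.1) ∈ K M := by
    intro n hn
    rw [← hc n (by omega), ← Finset.sum_coe_sort U]
  refine coef_indep U c fun n => ?_
  have h2 : K M = K (max M (n + 1)) := hM (max M (n + 1)) (le_max_left _ _)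
  rw [h2] at h1
  have h3 := h1 n (lt_of_lt_of_le (Nat.lt_succ_self n) (le_max_right _ _))
  rw [← h3, ← Finset.sum_coe_sort U]

/-- a common denominator -/
lemma coef_den (U : Finset (List ℕ)) (J : ℕ) : ∃ D : ℕ, 1 ≤ D ∧ ∀ (c : List ℕ → ℤ), ∀ k < J,
    ∑ v ∈ U, (c v : ℚ) * cf (up v) k ≠ 0 → 1 / (D : ℚ) ≤ |∑ v ∈ U, (c v : ℚ) * cf (up v) k| := by
  classical
  refine ⟨∏ u ∈ U, ∏ n ∈ Finset.range J, (cf (up u) n).den, ?_, ?_⟩
  · exact Nat.succ_le_of_lt (Finset.prod_pos fun u _ => Finset.prod_pos fun n _ => Rat.den_pos _)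
  · intro c n hn hne
    set D := ∏ u ∈ U, ∏ n ∈ Finset.range J, (cf (up u) n).den with hD
    have hD0 : 0 < D := Finset.prod_pos fun u _ => Finset.prod_pos fun n _ => Rat.den_pos _
    have h1 : ∀ u ∈ U, ∃ z : ℤ, (D : ℚ) * cf (up u) n = z := by
      intro u hu
      have h2 : (cf (up u) n).den ∣ D :=
        (Finset.dvd_prod_of_mem (fun n => (cf (up u) n).den) (Finset.mem_range.2 hn)).trans
          (Finset.dvd_prod_of_mem (fun u => ∏ n ∈ Finset.range J, (cf (up u) n).den) hu)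
      obtain ⟨k, hk⟩ := h2
      refine ⟨k * (cf (up u) n).num, ?_⟩
      rw [hk]
      push_cast
      have h3 := Rat.mul_den_eq_num (cf (up u) n)
      rw [← h3]
      ring
    choose! z hz using h1
    have h4 : (D : ℚ) * ∑ u ∈ U, (c u : ℚ) * cf (up u) n = ((∑ u ∈ U, c u * z u : ℤ) : ℚ) := by
      rw [Finset.mul_sum]
      push_cast
      refine Finset.sum_congr rfl fun u hu => ?_
      rw [← hz u hu]
      ring
    have hDq : (0 : ℚ) < D := by exact_mod_cast hD0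
    have h5 : (∑ u ∈ U, c u * z u : ℤ) ≠ 0 := by
      intro h
      rw [h, Int.cast_zero] at h4
      rcases mul_eq_zero.1 h4 with h | h
      · exact hDq.ne' h
      · exact hne h
    have h6 : (1 : ℚ) ≤ |((∑ u ∈ U, c u * z u : ℤ) : ℚ)| := by
      rw [← Int.cast_abs]
      exact_mod_cast Int.one_le_abs h5
    rw [← h4, abs_mul, abs_of_pos hDq] at h6
    rw [div_le_iff₀ hDq, mul_comm]
    exact h6

lemma rho_ge {M : ℕ} (hM : 1 ≤ M) {j J : ℕ} (hj : j ≤ J) :
    (((1 + J : ℕ) : ℝ) ^ J)⁻¹ * ((M : ℝ) ^ j)⁻¹ ≤ rho j M := by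
  have hM' : (1 : ℝ) ≤ M := by exact_mod_cast hM
  have hJ' : (1 : ℝ) ≤ ((1 + J : ℕ) : ℝ) := by exact_mod_cast (by omega : 1 ≤ 1 + J)
  have h1 : ∀ i, i ≤ J → ((((1 + J : ℕ) : ℝ) ^ i)⁻¹ * ((M : ℝ) ^ i)⁻¹ ≤ rho i M) := by
    intro i
    induction i with
    | zero => intro _; simp [rho]
    | succ i ih =>
      intro hi
      rw [rho_succ, pow_succ, pow_succ, mul_inv, mul_inv]
      have h2 := ih (by omega)
      have h3 : (((1 + J : ℕ) : ℝ))⁻¹ * ((M : ℝ))⁻¹ ≤ (((M + i : ℕ) : ℝ))⁻¹ := by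
        rw [← mul_inv]
        apply inv_anti₀ (by exact_mod_cast (by omega : 0 < M + i))
        push_cast
        have h4 : (i : ℝ) ≤ J := by exact_mod_cast (by omega : i ≤ J)
        nlinarith
      calc (((1 + J : ℕ) : ℝ) ^ i)⁻¹ * (((1 + J : ℕ) : ℝ))⁻¹ * (((M : ℝ) ^ i)⁻¹ * ((M : ℝ))⁻¹)
          = ((((1 + J : ℕ) : ℝ) ^ i)⁻¹ * ((M : ℝ) ^ i)⁻¹) * ((((1 + J : ℕ) : ℝ))⁻¹ * ((M : ℝ))⁻¹) := by ring
        _ ≤ _ := mul_le_mul h2 h3 (by positivity) (rho_nonneg i M)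
  refine le_trans ?_ (h1 j hj)
  refine mul_le_mul_of_nonneg_right ?_ (by positivity)
  apply inv_anti₀ (by positivity)
  exact pow_le_pow_right₀ hJ' hj

/-- the linear form in the tails -/
noncomputable def LF (U : Finset (List ℕ)) (c : List ℕ → ℤ) (M : ℕ) : ℝ :=
  ∑ v ∈ U, (c v : ℝ) * T (up v).reverse M

/-- beyond a multiple of the height the linear form has a sign and is not small -/
lemma sign (U : Finset (List ℕ)) : ∃ κ : ℝ, 0 < κ ∧ ∃ J : ℕ, 1 ≤ J ∧ ∀ c : List ℕ → ℤ, (∃ v ∈ U, c v ≠ 0) →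
    ∀ h : ℝ, (∀ v ∈ U, |(c v : ℝ)| ≤ h) → ∃ s : ℝ, (s = 1 ∨ s = -1) ∧
      ∀ M : ℕ, 1 ≤ M → h ≤ κ * M → κ * ((M : ℝ) ^ J)⁻¹ ≤ s * LF U c M := by
  classical
  obtain ⟨J, hJ1, hJ⟩ := coef_fin U
  obtain ⟨D, hD1, hD⟩ := coef_den U J
  have hex : ∀ v, ∃ C : ℝ, ∀ M : ℕ, 1 ≤ M →
      |T (up v).reverse M - ∑ k ∈ Finset.range J, (cf (up v) k : ℝ) * rho k M| ≤ C * ((M : ℝ) ^ J)⁻¹ :=
    fun v => hasExp_T (up v) (up_two v) J
  choose C hC using hex
  have hC0 : ∀ v, 0 ≤ C v := by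
    intro v
    have h1 := (abs_nonneg _).trans (hC v 1 le_rfl)
    simpa using h1
  -- the constants
  set A : ℝ := ∑ v ∈ U, ∑ k ∈ Finset.range J, |(cf (up v) k : ℝ)| with hA
  set B' : ℝ := ∑ v ∈ U, C v with hB
  have hA0 : 0 ≤ A := Finset.sum_nonneg fun _ _ => Finset.sum_nonneg fun _ _ => abs_nonneg _
  have hB0 : 0 ≤ B' := Finset.sum_nonneg fun v _ => hC0 v
  set E : ℝ := (((1 + J : ℕ) : ℝ) ^ J)⁻¹ with hE
  have hE0 : 0 < E := by rw [hE]; positivity
  have hDr : (0 : ℝ) < D := by exact_mod_cast hD1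
  set e : ℝ := E / D with he
  have he0 : 0 < e := div_pos hE0 hDr
  set κ : ℝ := min (e / 2) (e / (2 * (A + B' + 1))) with hκ
  have hκ0 : 0 < κ := lt_min (by positivity) (by positivity)
  refine ⟨κ, hκ0, J, hJ1, fun c hc h hh => ?_⟩
  have hh0 : 0 ≤ h := by
    obtain ⟨v, hv, -⟩ := hc
    exact (abs_nonneg _).trans (hh v hv)
  set a : ℕ → ℚ := fun k => ∑ v ∈ U, (c v : ℚ) * cf (up v) k with ha
  have hne : ∃ k, k < J ∧ a k ≠ 0 := by
    by_contra hcon
    push Not at hcon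
    obtain ⟨v, hv, hcv⟩ := hc
    have := hJ (fun v => (c v : ℚ)) hcon v hv
    exact hcv (by exact_mod_cast this)
  set j := Nat.find hne with hj
  obtain ⟨hjJ, hja⟩ := Nat.find_spec hne
  have hjmin : ∀ k, k < j → a k = 0 := by
    intro k hk
    have := Nat.find_min hne hk
    push Not at this
    exact this (by omega)
  have hja' : 1 / (D : ℝ) ≤ |(a j : ℝ)| := by
    have h1 : 1 / (D : ℚ) ≤ |a j| := hD c j hjJ hja
    have h2 : ((1 / (D : ℚ) : ℚ) : ℝ) ≤ ((|a j| : ℚ) : ℝ) := Rat.cast_le.2 h1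
    rw [Rat.cast_abs, Rat.cast_div, Rat.cast_one, Rat.cast_natCast] at h2
    exact h2
  -- the expansion of the linear form
  have hexp : ∀ M : ℕ, 1 ≤ M → |LF U c M - (a j : ℝ) * rho j M| ≤ h * (A + B') * ((M : ℝ) ^ (j + 1))⁻¹ := by
    intro M hM
    have hM' : (1 : ℝ) ≤ M := by exact_mod_cast hM
    have h1 : LF U c M - (a j : ℝ) * rho j M =
        ∑ v ∈ U, (c v : ℝ) * (T (up v).reverse M - ∑ k ∈ Finset.range J, (cf (up v) k : ℝ) * rho k M) +
        ∑ k ∈ Finset.Ico (j + 1) J, (a k : ℝ) * rho k M := by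
      have h2 : ∑ k ∈ Finset.range J, (a k : ℝ) * rho k M =
          (a j : ℝ) * rho j M + ∑ k ∈ Finset.Ico (j + 1) J, (a k : ℝ) * rho k M := by
        rw [Finset.range_eq_Ico, ← Finset.sum_Ico_consecutive _ (Nat.zero_le j) hjJ.le,
          Finset.sum_eq_sum_Ico_succ_bot hjJ]
        rw [Finset.sum_eq_zero fun k hk => by rw [hjmin k (Finset.mem_Ico.1 hk).2, Rat.cast_zero, zero_mul],
          zero_add]
      have h3 : ∑ k ∈ Finset.range J, (a k : ℝ) * rho k M =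
          ∑ v ∈ U, (c v : ℝ) * ∑ k ∈ Finset.range J, (cf (up v) k : ℝ) * rho k M := by
        simp only [Finset.mul_sum]
        rw [Finset.sum_comm]
        refine Finset.sum_congr rfl fun k _ => ?_
        rw [ha]
        push_cast
        rw [Finset.sum_mul]
        refine Finset.sum_congr rfl fun v _ => ?_
        ring
      simp only [mul_sub, Finset.sum_sub_distrib]
      rw [← h3, h2, LF]
      ring
    rw [h1]
    refine (abs_add_le _ _).trans ?_
    have h4 : |∑ v ∈ U, (c v : ℝ) * (T (up v).reverse M - ∑ k ∈ Finset.range J, (cf (up v) k : ℝ) * rho k M)| ≤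
        h * B' * ((M : ℝ) ^ (j + 1))⁻¹ := by
      refine (Finset.abs_sum_le_sum_abs _ _).trans ?_
      rw [hB, Finset.mul_sum, Finset.sum_mul]
      refine Finset.sum_le_sum fun v hv => ?_
      rw [abs_mul, mul_assoc]
      refine mul_le_mul (hh v hv) ((hC v M hM).trans ?_) (abs_nonneg _) hh0
      refine mul_le_mul_of_nonneg_left ?_ (hC0 v)
      apply inv_anti₀ (by positivity)
      exact pow_le_pow_right₀ hM' (by omega)
    have h5 : |∑ k ∈ Finset.Ico (j + 1) J, (a k : ℝ) * rho k M| ≤ h * A * ((M : ℝ) ^ (j + 1))⁻¹ := by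
      refine (Finset.abs_sum_le_sum_abs _ _).trans ?_
      have h6 : ∀ k ∈ Finset.Ico (j + 1) J, |(a k : ℝ) * rho k M| ≤
          (h * ∑ v ∈ U, |(cf (up v) k : ℝ)|) * ((M : ℝ) ^ (j + 1))⁻¹ := by
        intro k hk
        rw [abs_mul, abs_of_nonneg (rho_nonneg k M)]
        refine mul_le_mul ?_ ((rho_le hM k).trans ?_) (rho_nonneg k M) (by positivity)
        · rw [ha]
          push_cast
          refine (Finset.abs_sum_le_sum_abs _ _).trans ?_
          rw [Finset.mul_sum]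
          refine Finset.sum_le_sum fun v hv => ?_
          rw [abs_mul]
          exact mul_le_mul_of_nonneg_right (hh v hv) (abs_nonneg _)
        · apply inv_anti₀ (by positivity)
          exact pow_le_pow_right₀ hM' (Finset.mem_Ico.1 hk).1
      refine (Finset.sum_le_sum h6).trans ?_
      rw [← Finset.sum_mul, ← Finset.mul_sum]
      refine mul_le_mul_of_nonneg_right (mul_le_mul_of_nonneg_left ?_ hh0) (by positivity)
      rw [Finset.sum_comm, hA]
      refine Finset.sum_le_sum fun v _ => ?_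
      refine Finset.sum_le_sum_of_subset_of_nonneg ?_ fun _ _ _ => abs_nonneg _
      intro k hk
      rw [Finset.mem_range]
      exact (Finset.mem_Ico.1 hk).2
    rw [mul_add, add_mul]
    linarith
  -- the sign
  obtain ⟨s, hs, hsa⟩ : ∃ s : ℝ, (s = 1 ∨ s = -1) ∧ s * (a j : ℝ) = |(a j : ℝ)| := by
    rcases le_total 0 (a j : ℝ) with h0 | h0
    · exact ⟨1, Or.inl rfl, by rw [one_mul, abs_of_nonneg h0]⟩
    · exact ⟨-1, Or.inr rfl, by rw [abs_of_nonpos h0]; ring⟩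
  have hs1 : |s| = 1 := by
    rcases hs with rfl | rfl
    · exact abs_one
    · rw [abs_neg, abs_one]
  refine ⟨s, hs, fun M hM hκM => ?_⟩
  have hM' : (1 : ℝ) ≤ M := by exact_mod_cast hM
  have hM0 : (0 : ℝ) < M := by linarith
  have h1 := hexp M hM
  have h2 : s * LF U c M = |(a j : ℝ)| * rho j M + s * (LF U c M - (a j : ℝ) * rho j M) := by
    rw [← hsa]; ring
  have h3 : |s * (LF U c M - (a j : ℝ) * rho j M)| ≤ h * (A + B') * ((M : ℝ) ^ (j + 1))⁻¹ := by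
    rw [abs_mul, hs1, one_mul]; exact h1
  have h4 := (abs_le.1 h3).1
  have h5 : e * ((M : ℝ) ^ j)⁻¹ ≤ |(a j : ℝ)| * rho j M := by
    calc e * ((M : ℝ) ^ j)⁻¹ = (1 / (D : ℝ)) * (E * ((M : ℝ) ^ j)⁻¹) := by rw [he]; ring
      _ ≤ |(a j : ℝ)| * rho j M := mul_le_mul hja' (rho_ge hM hjJ.le) (by positivity) (abs_nonneg _)
  have h6 : h * (A + B') * ((M : ℝ) ^ (j + 1))⁻¹ ≤ (e / 2) * ((M : ℝ) ^ j)⁻¹ := by
    have h7 : h ≤ e / (2 * (A + B' + 1)) * M :=
      hκM.trans (mul_le_mul_of_nonneg_right (min_le_right _ _) hM0.le)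
    have h8 : h * (A + B') ≤ e / 2 * M := by
      have h9 : h * (A + B' + 1) ≤ e / 2 * M := by
        have h10 := mul_le_mul_of_nonneg_right h7 (show 0 ≤ A + B' + 1 by positivity)
        refine h10.trans (le_of_eq ?_)
        field_simp
      nlinarith
    calc h * (A + B') * ((M : ℝ) ^ (j + 1))⁻¹ ≤ e / 2 * M * ((M : ℝ) ^ (j + 1))⁻¹ :=
          mul_le_mul_of_nonneg_right h8 (by positivity)
      _ = (e / 2) * ((M : ℝ) ^ j)⁻¹ := by
        rw [pow_succ, mul_inv]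
        field_simp
  have h7 : (e / 2) * ((M : ℝ) ^ j)⁻¹ ≤ s * LF U c M := by
    rw [h2]; linarith
  refine le_trans ?_ h7
  refine mul_le_mul (min_le_left _ _) ?_ (by positivity) (by positivity)
  apply inv_anti₀ (by positivity)
  exact pow_le_pow_right₀ hM' hjJ.le

lemma H_pos (q : List ℕ) : ∀ n, q.length ≤ n → 0 < H q n := by
  induction q with
  | nil => intro n _; rw [H_nil]; exact one_pos
  | cons b q ih =>
    intro n hn
    rw [List.length_cons] at hn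
    rw [H_cons]
    obtain ⟨m, rfl⟩ : ∃ m, n = m + 1 := ⟨n - 1, by omega⟩
    rw [Finset.sum_range_succ]
    refine add_pos_of_nonneg_of_pos ?_ ?_
    · exact Finset.sum_nonneg fun k _ => mul_nonneg (by positivity) (H_nonneg q k)
    · exact mul_pos (by positivity) (ih m (by omega))

lemma adm_cons {b : ℕ} {q : List ℕ} (hb : 2 ≤ b) (hq : ∀ x ∈ q, 1 ≤ x) : Adm (b :: q) := by
  refine ⟨fun a ha => ?_, fun a t h => ?_⟩
  · rcases List.mem_cons.1 ha with rfl | h
    · omega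
    · exact hq a h
  · rw [← (List.cons.inj h).1]; exact hb

lemma val_pos {b : ℕ} {q : List ℕ} (hb : 2 ≤ b) (hq : ∀ x ∈ q, 1 ≤ x) : 0 < val (b :: q) :=
  lt_of_lt_of_le (H_pos _ _ le_rfl) (H_le_val _ (adm_cons hb hq) _)

/-- the value of a word as a sum over the largest variable -/
lemma val_cons_eq {b : ℕ} {q : List ℕ} (hb : 2 ≤ b) (hq : ∀ x ∈ q, 1 ≤ x) :
    val (b :: q) = ∑' n : ℕ, H q n * (((n + 1 : ℕ) : ℝ) ^ b)⁻¹ ∧
      Summable fun n : ℕ => H q n * (((n + 1 : ℕ) : ℝ) ^ b)⁻¹ := by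
  have h1 := tendsto_H _ (adm_cons hb hq)
  have h2 : ∀ N, H (b :: q) N = ∑ n ∈ Finset.range N, H q n * (((n + 1 : ℕ) : ℝ) ^ b)⁻¹ := by
    intro N
    rw [H_cons]
    refine Finset.sum_congr rfl fun n _ => ?_
    push_cast
    ring
  have h3 : Summable fun n : ℕ => H q n * (((n + 1 : ℕ) : ℝ) ^ b)⁻¹ := by
    refine summable_of_sum_range_le (c := val (b :: q)) (fun n => ?_) fun N => ?_
    · exact mul_nonneg (H_nonneg q n) (by positivity)
    · rw [← h2]
      exact H_le_val _ (adm_cons hb hq) N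
  refine ⟨tendsto_nhds_unique h1 ?_, h3⟩
  have h4 := h3.hasSum.tendsto_sum_nat
  exact h4.congr fun N => (h2 N).symm

/-- the main inequality -/
theorem measure (U : Finset (List ℕ)) : ∃ κ : ℝ, 0 < κ ∧ ∃ J : ℕ, 1 ≤ J ∧ ∀ (b : ℕ) (q : List ℕ), 1 ≤ b →
    (∀ x ∈ q, 1 ≤ x) → ([] ∈ U → 2 ≤ b) → ∀ c : List ℕ → ℤ, (∃ v ∈ U, c v ≠ 0) →
    (∀ v ∈ U, |(c v : ℝ)| ≤ κ * (q.length + 1)) →
    κ * val ((b + J) :: q) ≤ |∑ v ∈ U, (c v : ℝ) * val ((up v).reverse ++ b :: q)| := by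
  obtain ⟨κ, hκ, J, hJ1, hs⟩ := sign U
  refine ⟨κ, hκ, J, hJ1, fun b q hb hq hne c hc hcb => ?_⟩
  obtain ⟨s, hs1, hsM⟩ := hs c hc _ hcb
  have hs2 : |s| = 1 := by
    rcases hs1 with rfl | rfl
    · exact abs_one
    · rw [abs_neg, abs_one]
  have hboth : ∀ v ∈ U, (Summable fun n : ℕ => H q n * (((n + 1 : ℕ) : ℝ) ^ b)⁻¹ * T (up v).reverse (n + 1)) ∧
      val ((up v).reverse ++ b :: q) = ∑' n : ℕ, H q n * (((n + 1 : ℕ) : ℝ) ^ b)⁻¹ * T (up v).reverse (n + 1) := by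
    intro v hv
    by_cases hv0 : v = []
    · subst hv0
      have h0 := val_cons_eq (hne hv) hq
      have h1 : (up []).reverse = [] := by rw [up, List.map_nil, List.reverse_nil]
      rw [h1]
      simp only [T_nil, mul_one]
      exact ⟨h0.2, h0.1⟩
    · have hune : (up v).reverse ≠ [] := by
        intro h
        rw [List.reverse_eq_nil_iff, up, List.map_eq_nil_iff] at h
        exact hv0 h
      refine ⟨Summable.of_nonneg_of_le (fun n => ?_) (fun n => ?_) (summable_w hb hq),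
        val_eq (up_two_rev v) hune hb hq⟩
      · exact mul_nonneg (mul_nonneg (H_nonneg q n) (by positivity)) (T_nonneg (up_two_rev v) (by omega))
      · exact mul_le_mul_of_nonneg_left (T_le_inv (up_two_rev v) hune (by omega))
          (mul_nonneg (H_nonneg q n) (by positivity))
  have hsum := fun v hv => (hboth v hv).1
  have h1 : ∑ v ∈ U, (c v : ℝ) * val ((up v).reverse ++ b :: q) =
      ∑' n : ℕ, H q n * (((n + 1 : ℕ) : ℝ) ^ b)⁻¹ * LF U c (n + 1) := by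
    have h2 : ∀ n : ℕ, H q n * (((n + 1 : ℕ) : ℝ) ^ b)⁻¹ * LF U c (n + 1) =
        ∑ v ∈ U, (c v : ℝ) * (H q n * (((n + 1 : ℕ) : ℝ) ^ b)⁻¹ * T (up v).reverse (n + 1)) := by
      intro n
      rw [LF, Finset.mul_sum]
      refine Finset.sum_congr rfl fun v _ => ?_
      ring
    simp only [h2]
    rw [Summable.tsum_finsetSum fun v hv => (hsum v hv).mul_left _]
    refine Finset.sum_congr rfl fun v hv => ?_
    rw [tsum_mul_left, (hboth v hv).2]
  have hsumLF : Summable fun n : ℕ => H q n * (((n + 1 : ℕ) : ℝ) ^ b)⁻¹ * LF U c (n + 1) := by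
    have h2 : ∀ n : ℕ, H q n * (((n + 1 : ℕ) : ℝ) ^ b)⁻¹ * LF U c (n + 1) =
        ∑ v ∈ U, (c v : ℝ) * (H q n * (((n + 1 : ℕ) : ℝ) ^ b)⁻¹ * T (up v).reverse (n + 1)) := by
      intro n
      rw [LF, Finset.mul_sum]
      refine Finset.sum_congr rfl fun v _ => ?_
      ring
    simp only [h2]
    exact summable_sum fun v hv => (hsum v hv).mul_left _
  obtain ⟨h3, h4⟩ := val_cons_eq (show 2 ≤ b + J by omega) hq
  have h5 : κ * val ((b + J) :: q) ≤ s * ∑' n : ℕ, H q n * (((n + 1 : ℕ) : ℝ) ^ b)⁻¹ * LF U c (n + 1) := by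
    rw [h3, ← tsum_mul_left, ← tsum_mul_left]
    refine (h4.mul_left κ).tsum_le_tsum (fun n => ?_) (hsumLF.mul_left s)
    rcases Nat.lt_or_ge n q.length with h6 | h6
    · rw [H_zero_of_lt q n h6]
      simp
    · have h7 := hsM (n + 1) (by omega) (by
        refine mul_le_mul_of_nonneg_left ?_ hκ.le
        have : (q.length : ℝ) ≤ n := by exact_mod_cast h6
        push_cast
        linarith)
      have h8 : (((n + 1 : ℕ) : ℝ) ^ (b + J))⁻¹ = (((n + 1 : ℕ) : ℝ) ^ b)⁻¹ * (((n + 1 : ℕ) : ℝ) ^ J)⁻¹ := by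
        rw [pow_add, mul_inv]
      rw [h8]
      calc κ * (H q n * ((((n + 1 : ℕ) : ℝ) ^ b)⁻¹ * (((n + 1 : ℕ) : ℝ) ^ J)⁻¹))
          = H q n * (((n + 1 : ℕ) : ℝ) ^ b)⁻¹ * (κ * (((n + 1 : ℕ) : ℝ) ^ J)⁻¹) := by ring
        _ ≤ H q n * (((n + 1 : ℕ) : ℝ) ^ b)⁻¹ * (s * LF U c (n + 1)) :=
          mul_le_mul_of_nonneg_left h7 (mul_nonneg (H_nonneg q n) (by positivity))
        _ = _ := by ring
  rw [h1]
  refine h5.trans ((le_abs_self _).trans ?_)
  rw [abs_mul, hs2, one_mul]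

end Pool.Agent.L5helper5.CS
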